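import Mathlib

open Filter Topology Set
open scoped ENNReal

namespace Pool.Agent.Results.MP_3cd2af_an.ReorderingFails

/-! ### Topological entropy in the sense of Adler, Konheim and McAndrew -/

/-- The least cardinality of a finite subfamily of `𝒰` that covers the space. -/
noncomputable def minCard {X : Type*} (𝒰 : Set (Set X)) : ℕ :=
  sInf {k | ∃ t : Finset (Set X), (t : Set (Set X)) ⊆ 𝒰 ∧ ⋃₀ (t : Set (Set X)) = univ ∧ t.card = k}

/-- The join `𝒰 ∨ F⁻¹ 𝒰 ∨ ... ∨ F⁻⁽ⁿ⁻¹⁾ 𝒰`. -/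
def join {X : Type*} (F : X → X) (𝒰 : Set (Set X)) (n : ℕ) : Set (Set X) :=
  {V | ∃ u : ℕ → Set X, (∀ i < n, u i ∈ 𝒰) ∧ V = {x | ∀ i < n, F^[i] x ∈ u i}}

/-- The entropy of `F` relative to the cover `𝒰`. -/
noncomputable def coverEnt {X : Type*} (F : X → X) (𝒰 : Set (Set X)) : ℝ≥0∞ :=
  limsup (fun n : ℕ => ENNReal.ofReal (Real.log (minCard (join F 𝒰 n)) / n)) atTop

/-- The topological entropy (Adler–Konheim–McAndrew): the supremum over all open covers. -/
noncomputable def entropy {X : Type*} [TopologicalSpace X] (F : X → X) : ℝ≥0∞ :=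
  ⨆ (𝒰 : Set (Set X)) (_ : ∀ U ∈ 𝒰, IsOpen U) (_ : ⋃₀ 𝒰 = univ), coverEnt F 𝒰

/-! ### The logistic maps -/

/-- `f_a(x) = a x (1 - x)`. -/
def lg (a x : ℝ) : ℝ := a * x * (1 - x)

lemma lg_mem {a : ℝ} (ha : a ∈ Icc (1 : ℝ) 4) {x : ℝ} (hx : x ∈ Icc (0 : ℝ) 1) :
    lg a x ∈ Icc (0 : ℝ) 1 := by
  obtain ⟨h1, h2⟩ := ha
  obtain ⟨h3, h4⟩ := hx
  unfold lg
  constructor
  · exact mul_nonneg (mul_nonneg (by linarith) h3) (by linarith)
  · nlinarith [mul_nonneg h3 (show 0 ≤ 1 - x by linarith), sq_nonneg (2 * x - 1)]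

/-- The logistic map as a self-map of `[0,1]`, for `a ∈ [1,4]`. -/
def logistic (a : Icc (1 : ℝ) 4) (x : Icc (0 : ℝ) 1) : Icc (0 : ℝ) 1 :=
  ⟨lg a x, lg_mem a.2 x.2⟩

lemma continuous_logistic (a : Icc (1 : ℝ) 4) : Continuous (logistic a) := by
  refine Continuous.subtype_mk ?_ _
  unfold lg
  fun_prop

/-! ### A lower bound from a horseshoe -/

lemma exists_itinerary {X : Type*} {G : X → X} {I : Bool → Set X}
    (hI : ∀ b x, ∃ y ∈ I b, G y = x) (x0 : X) :
    ∀ (n : ℕ) (w : ℕ → Bool), ∃ x, ∀ i < n, G^[i] x ∈ I (w i) := by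
  intro n
  induction n with
  | zero => exact fun w => ⟨x0, fun i hi => absurd hi (Nat.not_lt_zero i)⟩
  | succ n ih =>
    intro w
    obtain ⟨x', hx'⟩ := ih (fun i => w (i + 1))
    obtain ⟨y, hy, hyx⟩ := hI (w 0) x'
    refine ⟨y, fun i hi => ?_⟩
    rcases i with _ | i
    · exact hy
    · rw [Function.iterate_succ_apply, hyx]
      exact hx' i (by omega)

lemma minCard_ge {X : Type*} {G : X → X} {I U : Bool → Set X}
    (hI : ∀ b x, ∃ y ∈ I b, G y = x) (hIU : ∀ b, Disjoint (I b) (U (!b)))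
    (hU : ∀ x, ∃ b, x ∈ U b) (x0 : X) (n : ℕ) :
    2 ^ n ≤ minCard (join G (range U) n) := by
  classical
  -- the words
  have hmem : minCard (join G (range U) n) ∈ {k | ∃ t : Finset (Set X),
      (t : Set (Set X)) ⊆ join G (range U) n ∧ ⋃₀ (t : Set (Set X)) = univ ∧ t.card = k} := by
    refine Nat.sInf_mem ?_
    have hfin : (join G (range U) n).Finite := by
      have : join G (range U) n ⊆ range (fun w : Fin n → Bool =>
          {x | ∀ i : Fin n, G^[i] x ∈ U (w i)}) := by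
        rintro V ⟨u, hu, rfl⟩
        choose! w hw using hu
        refine ⟨fun i => w i, ?_⟩
        ext x
        constructor
        · intro h i hi
          rw [← hw i hi]
          exact h ⟨i, hi⟩
        · intro h i
          have := h i i.2
          rw [← hw i i.2] at this
          exact this
      exact (finite_range _).subset this
    refine ⟨_, hfin.toFinset, by simp, ?_, rfl⟩
    rw [eq_univ_iff_forall]
    intro x
    choose b hb using hU
    refine ⟨{y | ∀ i < n, G^[i] y ∈ U (b (G^[i] x))}, ?_, fun i _ => hb _⟩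
    simp only [Finite.coe_toFinset]
    exact ⟨fun i => U (b (G^[i] x)), fun i _ => mem_range_self _, rfl⟩
  obtain ⟨t, ht1, ht2, ht3⟩ := hmem
  rw [← ht3]
  -- an injection from words to t
  have key : ∀ w : Fin n → Bool, ∃ x, ∀ i : Fin n, G^[i] x ∈ I (w i) := by
    intro w
    obtain ⟨x, hx⟩ := exists_itinerary hI x0 n (fun i => if h : i < n then w ⟨i, h⟩ else true)
    refine ⟨x, fun i => ?_⟩
    have := hx i i.2
    simpa using this
  choose x hx using key
  have hV : ∀ w : Fin n → Bool, ∃ V ∈ t, x w ∈ V := by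
    intro w
    have : x w ∈ ⋃₀ (t : Set (Set X)) := by rw [ht2]; trivial
    obtain ⟨V, hV, hxV⟩ := this
    exact ⟨V, hV, hxV⟩
  choose V hVt hxV using hV
  have hUI : ∀ {b c : Bool} {y : X}, y ∈ I b → y ∈ U c → b = c := by
    intro b c y h1 h2
    by_contra hbc
    have : c = !b := by
      cases b <;> cases c <;> simp_all
    rw [this] at h2
    exact Set.disjoint_left.1 (hIU b) h1 h2
  have hinj : Function.Injective V := by
    intro w w' hww
    obtain ⟨u, hu, huV⟩ := ht1 (hVt w)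
    have h1 := hxV w
    have h2 := hxV w'
    rw [← hww, huV] at h2
    rw [huV] at h1
    funext i
    obtain ⟨c, hc⟩ := hu i i.2
    have e1 := h1 i i.2
    have e2 := h2 i i.2
    rw [← hc] at e1 e2
    rw [hUI (hx w i) e1, hUI (hx w' i) e2]
  calc 2 ^ n = (Finset.univ : Finset (Fin n → Bool)).card := by simp
    _ ≤ t.card := Finset.card_le_card_of_injOn V (fun w _ => hVt w) hinj.injOn

lemma entropy_ge {X : Type*} [TopologicalSpace X] {G : X → X} {I U : Bool → Set X}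
    (hI : ∀ b x, ∃ y ∈ I b, G y = x) (hIU : ∀ b, Disjoint (I b) (U (!b)))
    (hU : ∀ x, ∃ b, x ∈ U b) (hUo : ∀ b, IsOpen (U b)) (x0 : X) :
    ENNReal.ofReal (Real.log 2) ≤ entropy G := by
  have h1 : coverEnt G (range U) ≤ entropy G := by
    unfold entropy
    refine le_iSup_of_le (range U) (le_iSup_of_le ?_ (le_iSup_of_le ?_ le_rfl))
    · rintro _ ⟨b, rfl⟩
      exact hUo b
    · rw [eq_univ_iff_forall]
      intro x
      obtain ⟨b, hb⟩ := hU x
      exact ⟨U b, mem_range_self b, hb⟩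
  refine le_trans ?_ h1
  unfold coverEnt
  have h2 : ∀ᶠ n : ℕ in atTop, ENNReal.ofReal (Real.log 2) ≤
      ENNReal.ofReal (Real.log (minCard (join G (range U) n)) / n) := by
    filter_upwards [eventually_gt_atTop 0] with n hn
    have hn' : (0 : ℝ) < n := by exact_mod_cast hn
    refine ENNReal.ofReal_le_ofReal ?_
    rw [le_div_iff₀ hn', mul_comm, ← Real.log_pow]
    refine Real.log_le_log (by positivity) ?_
    exact_mod_cast minCard_ge hI hIU hU x0 n
  calc ENNReal.ofReal (Real.log 2)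
      = limsup (fun _ : ℕ => ENNReal.ofReal (Real.log 2)) atTop := limsup_const _ |>.symm
    _ ≤ _ := limsup_le_limsup h2

/-! ### Systems whose orbits leave a repelling point and settle at an attracting one -/

lemma minCard_le {X : Type*} {F : X → X} {𝒰 : Set (Set X)} {U₀ Up : Set X} (hU₀ : U₀ ∈ 𝒰)
    (hUp : Up ∈ 𝒰) {t : Finset (Set X)} (ht : (t : Set (Set X)) ⊆ 𝒰)
    (htc : ⋃₀ (t : Set (Set X)) = univ) {m : ℕ}
    (h : ∀ x : X, ∀ n : ℕ, ∃ e ≤ n, (∀ i < n, 1 ≤ i → i < e → F^[i] x ∈ U₀) ∧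
      ∀ i < n, e + m ≤ i → F^[i] x ∈ Up) (n : ℕ) :
    minCard (join F 𝒰 n) ≤ (n + 1) * t.card ^ (m + 1) := by
  classical
  have hc : ∀ x : X, ∃ c : t, x ∈ (c : Set X) := by
    intro x
    have : x ∈ ⋃₀ (t : Set (Set X)) := by rw [htc]; trivial
    obtain ⟨V, hV, hxV⟩ := this
    exact ⟨⟨V, hV⟩, hxV⟩
  choose c hc using hc
  set itn : Fin (n + 1) × (Fin (m + 1) → t) → ℕ → Set X := fun q i =>
    if i = 0 then (q.2 0 : Set X) else if h' : i < q.1 then U₀ else
      if h : i < q.1 + m then (q.2 ⟨i - q.1 + 1, by omega⟩ : Set X) else Up with hitn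
  set A : Fin (n + 1) × (Fin (m + 1) → t) → Set X := fun q => {x | ∀ i < n, F^[i] x ∈ itn q i}
    with hA
  have hsub : ((Finset.univ.image A : Finset (Set X)) : Set (Set X)) ⊆ join F 𝒰 n := by
    intro V hV
    simp only [Finset.coe_image, Finset.coe_univ, image_univ, mem_range] at hV
    obtain ⟨q, rfl⟩ := hV
    refine ⟨itn q, fun i _ => ?_, rfl⟩
    simp only [hitn]
    split_ifs
    · exact ht (q.2 0).2
    · exact hU₀
    · exact ht (Subtype.coe_prop _)
    · exact hUp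
  have hcov : ⋃₀ ((Finset.univ.image A : Finset (Set X)) : Set (Set X)) = univ := by
    rw [eq_univ_iff_forall]
    intro x
    obtain ⟨e, hen, he1, he2⟩ := h x n
    set q : Fin (n + 1) × (Fin (m + 1) → t) :=
      (⟨e, by omega⟩, fun j => if (j : ℕ) = 0 then c x else c (F^[e + j - 1] x)) with hq
    refine ⟨A q, by simp, ?_⟩
    intro i hi
    show F^[i] x ∈ itn q i
    by_cases h1 : i = 0
    · subst h1
      simp only [hitn, hq, if_true]
      exact hc x
    · by_cases h3 : i < e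
      · simp only [hitn, hq, h1, h3, if_false, dif_pos]
        exact he1 i hi (by omega) h3
      · by_cases h4 : i < e + m
        · simp only [hitn, hq, h1, h3, h4, if_false, dif_neg, dif_pos, not_false_eq_true,
            Nat.succ_ne_zero]
          have : e + (i - e + 1) - 1 = i := by omega
          rw [this]
          exact hc _
        · simp only [hitn, hq, h1, h3, h4, if_false, dif_neg, not_false_eq_true]
          exact he2 i hi (by omega)
  calc minCard (join F 𝒰 n) ≤ (Finset.univ.image A : Finset (Set X)).card :=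
        Nat.sInf_le ⟨_, hsub, hcov, rfl⟩
    _ ≤ (Finset.univ : Finset (Fin (n + 1) × (Fin (m + 1) → t))).card := Finset.card_image_le
    _ = (n + 1) * t.card ^ (m + 1) := by simp

lemma coverEnt_eq_zero {X : Type*} {F : X → X} {𝒰 : Set (Set X)} {K : ℕ}
    (h : ∀ n, minCard (join F 𝒰 n) ≤ (n + 1) * K) : coverEnt F 𝒰 = 0 := by
  have hlim : Tendsto (fun n : ℕ => 2 * √(2 * ((K : ℝ) + 1)) * (√(n : ℝ))⁻¹) atTop (𝓝 0) := by
    have h1 : Tendsto (fun n : ℕ => (√(n : ℝ))⁻¹) atTop (𝓝 0) :=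
      tendsto_inv_atTop_zero.comp (Real.tendsto_sqrt_atTop.comp tendsto_natCast_atTop_atTop)
    simpa using h1.const_mul (2 * √(2 * ((K : ℝ) + 1)))
  have hlim2 : Tendsto (fun n : ℕ => ENNReal.ofReal (2 * √(2 * ((K : ℝ) + 1)) * (√(n : ℝ))⁻¹))
      atTop (𝓝 0) := by
    have := ENNReal.tendsto_ofReal hlim
    simpa using this
  have hle : coverEnt F 𝒰 ≤
      limsup (fun n : ℕ => ENNReal.ofReal (2 * √(2 * ((K : ℝ) + 1)) * (√(n : ℝ))⁻¹)) atTop := by
    unfold coverEnt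
    refine limsup_le_limsup ?_
    filter_upwards [eventually_gt_atTop 0] with n hn
    refine ENNReal.ofReal_le_ofReal ?_
    have hn' : (1 : ℝ) ≤ n := by exact_mod_cast hn
    have hn0 : (0 : ℝ) < n := by linarith
    have h1 : (minCard (join F 𝒰 n) : ℝ) ≤ 2 * (K + 1) * n := by
      have h2 : (minCard (join F 𝒰 n) : ℝ) ≤ (n + 1) * K := by exact_mod_cast h n
      have hK : (0 : ℝ) ≤ K := Nat.cast_nonneg K
      nlinarith
    have hlog : Real.log (minCard (join F 𝒰 n)) ≤ 2 * √(2 * ((K : ℝ) + 1) * n) := by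
      rcases Nat.eq_zero_or_pos (minCard (join F 𝒰 n)) with h0 | h0
      · rw [h0, Nat.cast_zero, Real.log_zero]
        positivity
      · have h0' : (0 : ℝ) < (minCard (join F 𝒰 n) : ℝ) := by exact_mod_cast h0
        set y : ℝ := (minCard (join F 𝒰 n) : ℝ) with hy
        have h3 : Real.log y = 2 * Real.log (√y) := by
          rw [Real.log_sqrt h0'.le]
          ring
        have h4 : Real.log (√y) ≤ √y := by
          have := Real.log_le_sub_one_of_pos (Real.sqrt_pos.2 h0')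
          linarith
        have h5 : √y ≤ √(2 * ((K : ℝ) + 1) * n) := Real.sqrt_le_sqrt h1
        rw [h3]
        linarith
    rw [div_le_iff₀ hn0]
    refine hlog.trans (le_of_eq ?_)
    rw [Real.sqrt_mul (by positivity)]
    have h6 : √(n : ℝ) * √(n : ℝ) = n := Real.mul_self_sqrt hn0.le
    have h7 : √(n : ℝ) ≠ 0 := (Real.sqrt_pos.2 hn0).ne'
    field_simp
    rw [sq, h6]
  rw [hlim2.limsup_eq] at hle
  exact le_antisymm hle bot_le

/-! ### The map `f_4 ∘ f_{6/5} ∘ f_3` -/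

/-- The map `f_4 ∘ f_{6/5} ∘ f_3` on the real line. -/
noncomputable def φ (x : ℝ) : ℝ := lg 4 (lg (6 / 5) (lg 3 x))

lemma φ_cont : Continuous φ := by
  unfold φ lg
  fun_prop

lemma lg3_bd {x : ℝ} (h0 : 0 ≤ x) (h1 : x ≤ 1) : 0 ≤ lg 3 x ∧ lg 3 x ≤ 3 / 4 := by
  unfold lg
  constructor
  · have := mul_nonneg h0 (show 0 ≤ 1 - x by linarith)
    nlinarith
  · nlinarith [sq_nonneg (2 * x - 1)]

lemma lg65_bd {x : ℝ} (h0 : 0 ≤ x) (h1 : x ≤ 1) : 0 ≤ lg (6 / 5) x ∧ lg (6 / 5) x ≤ 3 / 10 := by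
  unfold lg
  constructor
  · have := mul_nonneg h0 (show 0 ≤ 1 - x by linarith)
    nlinarith
  · nlinarith [sq_nonneg (2 * x - 1)]

lemma φ_le {x : ℝ} (h0 : 0 ≤ x) (h1 : x ≤ 1) : 0 ≤ φ x ∧ φ x ≤ 84 / 100 := by
  obtain ⟨a0, a1⟩ := lg3_bd h0 h1
  obtain ⟨b0, b1⟩ := lg65_bd a0 (by linarith : lg 3 x ≤ 1)
  unfold φ
  set z := lg (6 / 5) (lg 3 x)
  unfold lg
  constructor
  · have := mul_nonneg b0 (show 0 ≤ 1 - z by linarith)
    nlinarith
  · nlinarith

lemma φ_small {x : ℝ} (h0 : 0 ≤ x) (h1 : x ≤ 1 / 10) : 6 * x ≤ φ x := by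
  have a1 : 27 / 10 * x ≤ lg 3 x := by
    unfold lg
    nlinarith
  have a2 : lg 3 x ≤ 3 / 10 := by
    unfold lg
    nlinarith
  set y := lg 3 x with hy
  have b1 : 84 / 100 * y ≤ lg (6 / 5) y := by
    unfold lg
    nlinarith
  have b2 := (lg65_bd (show 0 ≤ y by linarith) (by linarith)).2
  unfold φ
  rw [← hy]
  set z := lg (6 / 5) y with hz
  have c1 : 28 / 10 * z ≤ lg 4 z := by
    unfold lg
    nlinarith
  linarith

lemma φ_mid {x : ℝ} (h0 : 1 / 10 ≤ x) (h1 : x ≤ 84 / 100) : 69 / 100 ≤ φ x := by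
  have a1 : 27 / 100 ≤ lg 3 x := by
    unfold lg
    nlinarith
  have a2 := (lg3_bd (show 0 ≤ x by linarith) (by linarith)).2
  set y := lg 3 x with hy
  have b1 : 225 / 1000 ≤ lg (6 / 5) y := by
    unfold lg
    nlinarith
  have b2 := (lg65_bd (show 0 ≤ y by linarith) (by linarith)).2
  unfold φ
  rw [← hy]
  set z := lg (6 / 5) y with hz
  unfold lg
  nlinarith

lemma steps {x : ℝ} (h0 : 69 / 100 ≤ x) (h1 : x ≤ 84 / 100) :
    4032 / 10000 ≤ lg 3 x ∧ lg 3 x ≤ 6417 / 10000 ∧ 275 / 1000 ≤ lg (6 / 5) (lg 3 x) ∧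
      lg (6 / 5) (lg 3 x) ≤ 3 / 10 := by
  have a1 : 4032 / 10000 ≤ lg 3 x := by
    unfold lg
    nlinarith
  have a2 : lg 3 x ≤ 6417 / 10000 := by
    unfold lg
    nlinarith
  set y := lg 3 x with hy
  have b1 : 275 / 1000 ≤ lg (6 / 5) y := by
    unfold lg
    nlinarith
  have b2 := (lg65_bd (show 0 ≤ y by linarith) (by linarith)).2
  exact ⟨a1, a2, b1, b2⟩

lemma φ_high {x : ℝ} (h0 : 69 / 100 ≤ x) (h1 : x ≤ 84 / 100) : 79 / 100 ≤ φ x := by
  obtain ⟨-, -, b1, b2⟩ := steps h0 h1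
  unfold φ
  set z := lg (6 / 5) (lg 3 x) with hz
  unfold lg
  nlinarith

lemma lg_sub (a x y : ℝ) : lg a x - lg a y = a * (1 - x - y) * (x - y) := by
  unfold lg
  ring

/-- `φ` contracts `[79/100, 84/100]`. -/
lemma φ_contr {x y : ℝ} (hx0 : 79 / 100 ≤ x) (hx1 : x ≤ 84 / 100) (hy0 : 79 / 100 ≤ y)
    (hy1 : y ≤ 84 / 100) : |φ x - φ y| ≤ 9 / 10 * |x - y| := by
  have ax1 : 4032 / 10000 ≤ lg 3 x := (steps (by linarith) hx1).1
  have ay1 : 4032 / 10000 ≤ lg 3 y := (steps (by linarith) hy1).1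
  have ax2 : lg 3 x ≤ 1 / 2 := by
    unfold lg
    nlinarith
  have ay2 : lg 3 y ≤ 1 / 2 := by
    unfold lg
    nlinarith
  have bx2 := (steps (by linarith) hx1).2.2.2
  have by2 := (steps (by linarith) hy1).2.2.2
  have bx1 : 28 / 100 ≤ lg (6 / 5) (lg 3 x) := by
    set u := lg 3 x
    unfold lg
    nlinarith
  have by1 : 28 / 100 ≤ lg (6 / 5) (lg 3 y) := by
    set u := lg 3 y
    unfold lg
    nlinarith
  unfold φ
  rw [lg_sub, lg_sub (6 / 5), lg_sub 3]
  set u := lg 3 x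
  set v := lg 3 y
  set p := lg (6 / 5) u
  set q := lg (6 / 5) v
  have e1 : |4 * (1 - p - q)| ≤ 176 / 100 := by
    rw [abs_le]
    constructor <;> linarith
  have e2 : |6 / 5 * (1 - u - v)| ≤ 24 / 100 := by
    rw [abs_le]
    constructor <;> linarith
  have e3 : |3 * (1 - x - y)| ≤ 204 / 100 := by
    rw [abs_le]
    constructor <;> linarith
  calc |4 * (1 - p - q) * (6 / 5 * (1 - u - v) * (3 * (1 - x - y) * (x - y)))|
      = |4 * (1 - p - q)| * (|6 / 5 * (1 - u - v)| * (|3 * (1 - x - y)| * |x - y|)) := by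
        rw [abs_mul, abs_mul (6 / 5 * (1 - u - v)), abs_mul (3 * (1 - x - y))]
    _ ≤ 176 / 100 * (24 / 100 * (204 / 100 * |x - y|)) := by gcongr
    _ ≤ 9 / 10 * |x - y| := by nlinarith [abs_nonneg (x - y)]

/-- A point `w ≤ x ≤ 84/100` is at least `min (6 ^ k * w) (1/10)` after `k` steps. -/
lemma iter_lower {w x : ℝ} (hw : 0 < w) (h0 : w ≤ x) (h1 : x ≤ 84 / 100) (k : ℕ) :
    min (6 ^ k * w) (1 / 10) ≤ φ^[k] x ∧ φ^[k] x ≤ 84 / 100 := by
  induction k with
  | zero => exact ⟨by simp [h0], h1⟩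
  | succ k ih =>
    rw [Function.iterate_succ_apply']
    obtain ⟨i1, i2⟩ := ih
    set y := φ^[k] x
    have hy0 : 0 ≤ y := le_trans (le_min (by positivity) (by norm_num)) i1
    refine ⟨?_, (φ_le hy0 (by linarith)).2⟩
    rcases le_total y (1 / 10) with h | h
    · have h2 := φ_small hy0 h
      rcases min_le_iff.1 i1 with h3 | h3
      · refine (min_le_left _ _).trans ?_
        rw [pow_succ]
        linarith
      · exact (min_le_right _ _).trans (by linarith)
    · exact (min_le_right _ _).trans (by linarith [φ_mid h i2])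

/-- Uniform convergence to the attracting fixed point away from `0`. -/
lemma unif {w : ℝ} (hw : 0 < w) {p : ℝ} (hp0 : 79 / 100 ≤ p) (hp1 : p ≤ 84 / 100) (hp : φ p = p)
    {ε : ℝ} (hε : 0 < ε) : ∃ m : ℕ, ∀ x, w ≤ x → x ≤ 84 / 100 → ∀ k, m ≤ k →
      |φ^[k] x - p| < ε := by
  obtain ⟨k₁, hk₁⟩ := pow_unbounded_of_one_lt (1 / w) (by norm_num : (1 : ℝ) < 6)
  obtain ⟨k₂, hk₂⟩ := exists_pow_lt_of_lt_one hε (by norm_num : (9 / 10 : ℝ) < 1)
  refine ⟨k₁ + 2 + k₂, fun x hx0 hx1 k hk => ?_⟩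
  obtain ⟨j, rfl⟩ : ∃ j, k = (k₂ + j) + (2 + k₁) := ⟨k - (k₁ + 2 + k₂), by omega⟩
  rw [Function.iterate_add_apply, Function.iterate_add_apply φ 2 k₁]
  have h1 := iter_lower hw hx0 hx1 k₁
  have h2 : 1 / 10 ≤ φ^[k₁] x := by
    refine le_trans ?_ h1.1
    refine le_min ?_ le_rfl
    have : 1 / w * w < 6 ^ k₁ * w := by gcongr
    rw [one_div, inv_mul_cancel₀ hw.ne'] at this
    linarith
  set y := φ^[k₁] x
  have h3 : φ^[2] y = φ (φ y) := rfl
  have h4 := φ_mid h2 h1.2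
  have h5 := (φ_le (show 0 ≤ y by linarith) (by linarith)).2
  have h6 := φ_high h4 h5
  have h7 := (φ_le (show 0 ≤ φ y by linarith) (by linarith)).2
  rw [h3]
  set z := φ (φ y)
  have key : ∀ i : ℕ, 79 / 100 ≤ φ^[i] z ∧ φ^[i] z ≤ 84 / 100 ∧
      |φ^[i] z - p| ≤ (9 / 10) ^ i := by
    intro i
    induction i with
    | zero =>
      refine ⟨h6, h7, ?_⟩
      simp only [Function.iterate_zero, id_eq, pow_zero]
      rw [abs_le]
      constructor <;> linarith
    | succ i ih =>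
      obtain ⟨i1, i2, i3⟩ := ih
      rw [Function.iterate_succ_apply']
      refine ⟨φ_high (by linarith) i2, (φ_le (by linarith) (by linarith)).2, ?_⟩
      have := φ_contr i1 i2 hp0 hp1
      rw [hp] at this
      refine this.trans ?_
      rw [pow_succ]
      linarith
  refine (key (k₂ + j)).2.2.trans_lt ?_
  calc (9 / 10 : ℝ) ^ (k₂ + j) = (9 / 10) ^ k₂ * (9 / 10) ^ j := pow_add _ _ _
    _ ≤ (9 / 10) ^ k₂ * 1 := by
        gcongr
        exact pow_le_one₀ (by norm_num) (by norm_num)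
    _ < ε := by rwa [mul_one]

lemma exists_fixed : ∃ p : ℝ, 79 / 100 ≤ p ∧ p ≤ 84 / 100 ∧ φ p = p := by
  obtain ⟨p, hp, hfp⟩ := exists_mem_Icc_isFixedPt_of_mapsTo (a := (79 / 100 : ℝ)) (b := 84 / 100)
    (f := φ) φ_cont.continuousOn (by norm_num) (fun x hx =>
      ⟨φ_high (by linarith [hx.1]) hx.2, (φ_le (by linarith [hx.1]) (by linarith [hx.2])).2⟩)
  exact ⟨p, hp.1, hp.2, hfp⟩

/-- The parameters. -/
noncomputable def c4 : Icc (1 : ℝ) 4 := ⟨4, by norm_num, by norm_num⟩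
noncomputable def c3 : Icc (1 : ℝ) 4 := ⟨3, by norm_num, by norm_num⟩
noncomputable def c65 : Icc (1 : ℝ) 4 := ⟨6 / 5, by norm_num, by norm_num⟩

lemma iter_coe (x : Icc (0 : ℝ) 1) (k : ℕ) :
    (((logistic c4 ∘ logistic c65 ∘ logistic c3)^[k] x : Icc (0 : ℝ) 1) : ℝ) = φ^[k] (x : ℝ) := by
  induction k with
  | zero => rfl
  | succ k ih =>
    rw [Function.iterate_succ_apply', Function.iterate_succ_apply', ← ih]
    rfl

theorem entropy_zero : entropy (logistic c4 ∘ logistic c65 ∘ logistic c3) = 0 := by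
  obtain ⟨p, hp0, hp1, hp⟩ := exists_fixed
  unfold entropy
  simp only [ENNReal.iSup_eq_zero]
  intro 𝒰 hop hcov
  set F := logistic c4 ∘ logistic c65 ∘ logistic c3 with hF
  have hcov' : ∀ x : Icc (0 : ℝ) 1, ∃ U ∈ 𝒰, x ∈ U := fun x => by
    have : x ∈ ⋃₀ 𝒰 := by rw [hcov]; trivial
    exact this
  obtain ⟨U₀, hU₀, h0U⟩ := hcov' ⟨0, by norm_num, by norm_num⟩
  obtain ⟨Up, hUp, hpU⟩ := hcov' ⟨p, by linarith, by linarith⟩
  obtain ⟨w, hw, hwU⟩ := Metric.isOpen_iff.1 (hop U₀ hU₀) _ h0U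
  obtain ⟨ε, hε, hεU⟩ := Metric.isOpen_iff.1 (hop Up hUp) _ hpU
  obtain ⟨m, hm⟩ := unif hw hp0 hp1 hp hε
  obtain ⟨t, ht, htf, htc⟩ := isCompact_univ.elim_finite_subcover_image (b := 𝒰) (c := id) hop
    (by simpa [← sUnion_eq_biUnion] using hcov.ge)
  refine coverEnt_eq_zero (K := htf.toFinset.card ^ (m + 1)) fun n => ?_
  refine minCard_le hU₀ hUp (t := htf.toFinset) (by simpa using ht)
    (by simpa [sUnion_eq_biUnion] using univ_subset_iff.1 htc) (m := m) (fun x n => ?_) n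
  classical
  by_cases hex : ∃ k, 1 ≤ k ∧ k ≤ n ∧ w ≤ φ^[k] (x : ℝ)
  · obtain ⟨h1, h2, h3⟩ := Nat.find_spec hex
    set e := Nat.find hex with he
    refine ⟨e, h2, fun i hi h1i hie => ?_, fun i hi hie => ?_⟩
    · have hnot := Nat.find_min hex hie
      push Not at hnot
      have h4 := hnot h1i (by omega)
      refine hwU ?_
      rw [Metric.mem_ball, Subtype.dist_eq, Real.dist_eq, iter_coe]
      simp only [sub_zero]
      have h5 : 0 ≤ φ^[i] (x : ℝ) := by
        rw [← iter_coe]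
        exact (F^[i] x).2.1
      rwa [abs_of_nonneg h5]
    · refine hεU ?_
      rw [Metric.mem_ball, Subtype.dist_eq, Real.dist_eq, iter_coe]
      obtain ⟨j, rfl⟩ : ∃ j, i = j + e := ⟨i - e, by omega⟩
      rw [Function.iterate_add_apply]
      refine hm _ h3 ?_ j (by omega)
      obtain ⟨e', he'⟩ : ∃ e', e = e' + 1 := ⟨e - 1, by omega⟩
      rw [he', Function.iterate_succ_apply', ← iter_coe]
      exact (φ_le (F^[e'] x).2.1 (F^[e'] x).2.2).2
  · push Not at hex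
    refine ⟨n, le_rfl, fun i hi h1i _ => ?_, fun i hi hie => ?_⟩
    · have h4 := hex i h1i (by omega)
      refine hwU ?_
      rw [Metric.mem_ball, Subtype.dist_eq, Real.dist_eq, iter_coe]
      simp only [sub_zero]
      have h5 : 0 ≤ φ^[i] (x : ℝ) := by
        rw [← iter_coe]
        exact (F^[i] x).2.1
      rwa [abs_of_nonneg h5]
    · omega

/-! ### The map `f_4 ∘ f_3 ∘ f_{6/5}` has a horseshoe -/

lemma psi_cont : Continuous fun x : ℝ => lg 4 (lg 3 (lg (6 / 5) x)) := by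
  unfold lg
  fun_prop

/-- The first branch: some `y ≤ 3/10` is mapped to a given value. -/
lemma surj_left {v : ℝ} (hv : v ∈ Icc (0 : ℝ) 1) :
    ∃ y ∈ Icc (0 : ℝ) (3 / 10), lg 4 (lg 3 (lg (6 / 5) y)) = v := by
  -- `f_{6/5}` maps `[0,3/10]` onto a set containing `[0, 1/4]`, `f_3` maps `[0,1/4]` onto
  -- a set containing `[0,1/2]`, and `f_4` maps `[0,1/2]` onto `[0,1]`.
  have s1 : ∃ a ∈ Icc (0 : ℝ) (1 / 2), lg 4 a = v := by
    have h := intermediate_value_Icc (by norm_num : (0 : ℝ) ≤ 1 / 2) (f := lg 4)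
      (by unfold lg; fun_prop)
    exact h ⟨by simpa [lg] using hv.1, by unfold lg; linarith [hv.2]⟩
  obtain ⟨a, ha, hav⟩ := s1
  have s2 : ∃ b ∈ Icc (0 : ℝ) (1 / 4), lg 3 b = a := by
    have h := intermediate_value_Icc (by norm_num : (0 : ℝ) ≤ 1 / 4) (f := lg 3)
      (by unfold lg; fun_prop)
    exact h ⟨by simpa [lg] using ha.1, by unfold lg; linarith [ha.2]⟩
  obtain ⟨b, hb, hba⟩ := s2
  have s3 : ∃ y ∈ Icc (0 : ℝ) (3 / 10), lg (6 / 5) y = b := by
    have h := intermediate_value_Icc (by norm_num : (0 : ℝ) ≤ 3 / 10) (f := lg (6 / 5))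
      (by unfold lg; fun_prop)
    exact h ⟨by simpa [lg] using hb.1, by unfold lg; linarith [hb.2]⟩
  obtain ⟨y, hy, hyb⟩ := s3
  exact ⟨y, hy, by rw [hyb, hba, hav]⟩

lemma lg_symm (a x : ℝ) : lg a (1 - x) = lg a x := by
  unfold lg
  ring

theorem entropy_pos : ENNReal.ofReal (Real.log 2) ≤
    entropy (logistic c4 ∘ logistic c3 ∘ logistic c65) := by
  set I : Bool → Set (Icc (0 : ℝ) 1) := fun b => if b then {x | (x : ℝ) ≤ 3 / 10}
    else {x | 7 / 10 ≤ (x : ℝ)} with hI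
  set U : Bool → Set (Icc (0 : ℝ) 1) := fun b => if b then {x | (x : ℝ) < 7 / 10}
    else {x | 3 / 10 < (x : ℝ)} with hU
  refine entropy_ge (I := I) (U := U) ?_ ?_ ?_ ?_ ⟨0, by norm_num, by norm_num⟩
  · intro b x
    obtain ⟨y, hy, hyx⟩ := surj_left x.2
    cases b
    · refine ⟨⟨1 - y, by linarith [hy.2], by linarith [hy.1]⟩, ?_, ?_⟩
      · show 7 / 10 ≤ 1 - y
        linarith [hy.2]
      · apply Subtype.ext
        show lg 4 (lg 3 (lg (6 / 5) (1 - y))) = x
        rw [lg_symm, hyx]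
    · refine ⟨⟨y, hy.1, by linarith [hy.2]⟩, ?_, ?_⟩
      · show y ≤ 3 / 10
        exact hy.2
      · apply Subtype.ext
        exact hyx
  · intro b
    rw [Set.disjoint_left]
    cases b
    · intro x h1 h2
      have h1' : 7 / 10 ≤ (x : ℝ) := h1
      have h2' : (x : ℝ) < 7 / 10 := h2
      linarith
    · intro x h1 h2
      have h1' : (x : ℝ) ≤ 3 / 10 := h1
      have h2' : 3 / 10 < (x : ℝ) := h2
      linarith
  · intro x
    rcases lt_or_ge (x : ℝ) (7 / 10) with h | h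
    · exact ⟨true, h⟩
    · refine ⟨false, ?_⟩
      show 3 / 10 < (x : ℝ)
      linarith
  · intro b
    cases b
    · exact isOpen_lt continuous_const continuous_subtype_val
    · exact isOpen_lt continuous_subtype_val continuous_const

/-- **Reordering changes the entropy.** For `a₁ = 4`, `a₂ = 3`, `a₃ = 6/5` the composition
`f₁ ∘ f₂ ∘ f₃` of logistic maps has topological entropy at least `log 2`, while `f₁ ∘ f₃ ∘ f₂` has
entropy `0`. -/
theorem result : ∃ a₁ a₂ a₃ : Icc (1 : ℝ) 4,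
    ENNReal.ofReal (Real.log 2) ≤ entropy (logistic a₁ ∘ logistic a₂ ∘ logistic a₃) ∧
    entropy (logistic a₁ ∘ logistic a₃ ∘ logistic a₂) = 0 ∧
    entropy (logistic a₁ ∘ logistic a₂ ∘ logistic a₃) ≠
      entropy (logistic a₁ ∘ logistic a₃ ∘ logistic a₂) := by
  refine ⟨c4, c3, c65, entropy_pos, entropy_zero, fun h => ?_⟩
  have h1 := entropy_pos
  rw [h, entropy_zero] at h1
  have h2 : (0 : ℝ≥0∞) < ENNReal.ofReal (Real.log 2) :=
    ENNReal.ofReal_pos.2 (Real.log_pos (by norm_num))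
  exact absurd (lt_of_lt_of_le h2 h1) (lt_irrefl _)

end Pool.Agent.Results.MP_3cd2af_an.ReorderingFails
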